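import Pool.Agent.H47.RPR.RQG
import Pool.Agent.H95.RPR.RAD
import Pool.Agent.H12.RPR.RAR
import Pool.Agent.H49.RPR.RST
import Pool.Agent.H1.RPR.RZA
import Pool.Agent.H13.RPR.RZE
import Pool.Agent.H31.RPR.RSC
import Pool.Agent.H79.RPR.RSE
import Pool.Agent.H95.RPR.RGN
import Pool.Agent.H36.RP.APX
import Pool.Agent.H35.RP.PYT
import Pool.Agent.H96.RP.PRD
import Pool.Agent.H19.RP.TAI
import Pool.Agent.H17.RP.IND
import Pool.Agent.H14.RP.MW

/-!
The remote past theorem for all real multiplicative functions: assembly.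
-/

set_option autoImplicit false

namespace Pool.Agent.H47.RPR

open Pool.Agent.H36.RP Pool.Agent.H47.RP

theorem tAPX : T_APX := Pool.Agent.H36.RP.pf_APX

theorem tPRD : T_PRD := Pool.Agent.H96.RP.pf_PRD tAPX Pool.Agent.H35.RP.pf_PYT

theorem tRSE : T_RSE := Pool.Agent.H79.RPR.pf_RSE
  (Pool.Agent.H31.RPR.pf_RSC tPRD Pool.Agent.H19.RP.pf_TAI)

theorem tRST : T_RST := Pool.Agent.H49.RPR.pf_RST Pool.Agent.H14.RP.pf_MW
  (Pool.Agent.H12.RPR.pf_RAR Pool.Agent.H95.RPR.pf_RAD)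

theorem tRFI : T_RFI := pf_RFI pf_RQG tRST
  (Pool.Agent.H13.RPR.pf_RZE Pool.Agent.H1.RPR.pf_RZA) tRSE Pool.Agent.H17.RP.pf_IND

theorem tRGN : T_RGN := Pool.Agent.H95.RPR.pf_RGN tAPX

end Pool.Agent.H47.RPR
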