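import Pool.Agent.H47.RPR.Fin
import Pool.Agent.H47.RP.Targets3
import Pool.Agent.H92.RR.All

/-!
The remote past theorem for all real multiplicative functions: assembly, part 2.
-/

set_option autoImplicit false

open MeasureTheory ProbabilityTheory Filter Topology

namespace Pool.Agent.H47.RPR

open Pool.Agent.H89.MT (I1 X IsMult QuasiGeneric)
open Pool.Agent.H36.RP (past remote remote_le)
open Pool.Agent.H47.RP
open Pool.Agent.H92.RR (Pred)

theorem final (h1 : T_RAB) (h2 : T_RLG) (h3 : T_RPI) (h4 : T_RPJ) (u : ℕ → I1) (hu : IsMult u)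
    (κ : Measure X) [IsProbabilityMeasure κ] (hκ : QuasiGeneric u κ) :
    (∀ n : ℤ, κ[fun x => |(x n : ℝ)| | remote] =ᵐ[κ] fun x => |(x n : ℝ)|) ∧
      iCondIndepFun remote remote_le (fun (n : ℤ) (x : X) => x n) κ ∧
      (∀ (q : ℤ) (A : Set X), MeasurableSet[remote] A →
        ∃ B : Set X, MeasurableSet[laws κ q] B ∧ A =ᵐ[κ] B) ∧
      (Pred u κ ↔ κ[fun x => (x 0 : ℝ) | remote] =ᵐ[κ] 0) := by
  have hab := h1 u hu κ hκ
  have hI : iCondIndepFun remote remote_le (fun (n : ℤ) (x : X) => x n) κ := tRFI u hu κ hκ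
  exact ⟨hab, hI, h2 κ hab hI, fun h => h4 u κ h, fun h => h3 u hu κ hκ hab hI h⟩

end Pool.Agent.H47.RPR
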