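import Pool.Agent.H47.RPR.RPI
import Pool.Agent.H1.RPR.RAB
import Pool.Agent.H46.RPR.RLG
import Pool.Agent.H90.RPR.RPJ

/-!
The remote past theorem for all real multiplicative functions: assembly, part 3.
-/

set_option autoImplicit false

open MeasureTheory ProbabilityTheory Filter Topology

namespace Pool.Agent.H47.RPR

open Pool.Agent.H89.MT (I1 X IsMult QuasiGeneric)
open Pool.Agent.H36.RP (past remote remote_le)
open Pool.Agent.H47.RP
open Pool.Agent.H92.RR (Pred)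

theorem pred_rem (u : ℕ → I1) (hu : IsMult u) (κ : Measure X) [IsProbabilityMeasure κ]
    (hκ : QuasiGeneric u κ) : Pool.Agent.H21.WN.PredRem κ := by
  obtain ⟨hq, hS⟩ := pf_RQG u κ hκ
  refine tRSE κ hS ?_
  by_cases hs : Summable (fun p : ℕ => if p.Prime then (1 - |(u p : ℝ)|) / p else 0)
  · exact Or.inl (tRST u hu hs κ hq)
  · exact Or.inr (Pool.Agent.H13.RPR.pf_RZE Pool.Agent.H1.RPR.pf_RZA u hu hs κ hκ)

theorem final' (u : ℕ → I1) (hu : IsMult u) (κ : Measure X) [IsProbabilityMeasure κ]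
    (hκ : QuasiGeneric u κ) :
    (∀ n : ℤ, κ[fun x => |(x n : ℝ)| | remote] =ᵐ[κ] fun x => |(x n : ℝ)|) ∧
      iCondIndepFun remote remote_le (fun (n : ℤ) (x : X) => x n) κ ∧
      (∀ (q : ℤ) (A : Set X), MeasurableSet[remote] A →
        ∃ B : Set X, MeasurableSet[laws κ q] B ∧ A =ᵐ[κ] B) ∧
      (Pred u κ ↔ κ[fun x => (x 0 : ℝ) | remote] =ᵐ[κ] 0) := by
  have hab : AbsR κ := Pool.Agent.H1.RPR.pf_RAB Pool.Agent.H19.RP.pf_TAI u hu κ hκ
  have hI : iCondIndepFun remote remote_le (fun (n : ℤ) (x : X) => x n) κ := tRFI u hu κ hκ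
  exact ⟨hab, hI, Pool.Agent.H46.RPR.pf_RLG tRGN κ hab hI,
    fun h => Pool.Agent.H90.RPR.pf_RPJ' u κ h,
    fun h => rpi u hu hκ hab (pred_rem u hu κ hκ) (pf_RQG u κ hκ).2 h⟩

end Pool.Agent.H47.RPR
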