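import Pool.Agent.H47.RP.Targets3
import Pool.Agent.H47.RPR.Fin
import Pool.Agent.H21.WN.Bri
import Pool.Agent.H28.MG.Shift
import Pool.Agent.H92.RR.All

/-!
If the remote past does not predict the sign, then the structure is as predicted by Q1.
-/

set_option autoImplicit false

open MeasureTheory ProbabilityTheory Filter Topology Finset

namespace Pool.Agent.H47.RPR

open Pool.Agent.H89.MT (I1 X pt z1 IsMult lavg QuasiGeneric Generic)
open Pool.Agent.H36.RP (S past remote remote_le)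
open Pool.Agent.H47.RP
open Pool.Agent.H92.RR (Pred mono star)
open Pool.Agent.H21.WN (prodf PredRem)

variable {κ : Measure X} [IsProbabilityMeasure κ]

theorem int_pow (n : ℤ) (j : ℕ) : Integrable (fun x : X => (x n : ℝ) ^ j) κ := by
  refine Integrable.of_bound
    ((measurable_subtype_coe.comp (measurable_pi_apply n)).pow_const j).aestronglyMeasurable 1
    (Eventually.of_forall fun x => ?_)
  rw [Real.norm_eq_abs, abs_pow]
  exact pow_le_one₀ (abs_nonneg _) (abs_le.2 (x n).2)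

theorem odd_zero (hab : AbsR κ) (n : ℤ) (h0 : κ[fun x => (x n : ℝ) | remote] =ᵐ[κ] 0) (j : ℕ)
    (hj : Odd j) : κ[fun x => (x n : ℝ) ^ j | remote] =ᵐ[κ] 0 := by
  obtain ⟨l, rfl⟩ := hj
  set A : X → ℝ := κ[fun x => |(x n : ℝ)| | remote] with hA
  have hAm : StronglyMeasurable[remote] A := stronglyMeasurable_condExp
  have e1 : (fun x : X => (x n : ℝ) ^ (2 * l + 1)) =ᵐ[κ]
      (fun x => A x ^ (2 * l)) * fun x => (x n : ℝ) := by
    filter_upwards [hab n] with x hx
    rw [Pi.mul_apply, hA, hx, pow_succ, pow_mul |(x n : ℝ)|, sq_abs, ← pow_mul]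
  have hi : Integrable (fun x : X => (x n : ℝ)) κ := by
    simpa using int_pow (κ := κ) n 1
  have hAi : Integrable ((fun x => A x ^ (2 * l)) * fun x : X => (x n : ℝ)) κ :=
    (int_pow (κ := κ) n (2 * l + 1)).congr e1
  have e2 := condExp_mul_of_stronglyMeasurable_left (μ := κ) (m := remote)
    (hAm.pow (2 * l)) hAi hi
  refine (condExp_congr_ae e1).trans ?_
  filter_upwards [e2, h0] with x h1 h2
  have h3 : (κ[(fun x => A x ^ (2 * l)) * fun x => (x n : ℝ) | remote]) x =
      (A ^ (2 * l) * κ[fun x => (x n : ℝ) | remote]) x := h1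
  rw [h3, Pi.mul_apply, h2]
  simp

theorem mono_zero (hab : AbsR κ) (hpred : PredRem κ) (hS : MeasurePreserving S κ κ)
    (h0 : κ[fun x => (x 0 : ℝ) | remote] =ᵐ[κ] 0) (H : Finset ℕ) (a : ℕ → ℕ)
    (ha : ∃ h ∈ H, Odd (a h)) : ∫ x, ∏ h ∈ H, (x (h : ℤ) : ℝ) ^ a h ∂κ = 0 := by
  classical
  have hP : ∀ h : ℕ, κ[fun x => (x (h : ℤ) : ℝ) | remote] =ᵐ[κ] 0 := by
    intro h
    refine (Pool.Agent.H28.MG.P_shift κ hS h).trans ?_
    have h1 := (hS.iterate h).quasiMeasurePreserving.ae_eq_comp h0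
    exact h1
  set s : Finset ℤ := H.map Nat.castEmbedding with hs
  have e0 : ∀ x : X, ∏ i ∈ s, (x i : ℝ) ^ a i.toNat = ∏ h ∈ H, (x (h : ℤ) : ℝ) ^ a h := by
    intro x
    rw [hs, Finset.prod_map]
    refine Finset.prod_congr rfl fun h _ => ?_
    simp
  have h1 := prodf hpred (fun (i : ℤ) (t : I1) => (t : ℝ) ^ a i.toNat)
    (fun i => measurable_subtype_coe.pow_const _) (fun i t => by
      rw [abs_pow]
      exact pow_le_one₀ (abs_nonneg _) (abs_le.2 t.2)) s
  obtain ⟨h₀, hh₀, hodd⟩ := ha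
  have h2 : (fun x => ∏ i ∈ s, (κ[fun x : X => (x i : ℝ) ^ a i.toNat | remote]) x) =ᵐ[κ] 0 := by
    filter_upwards [odd_zero hab (h₀ : ℤ) (hP h₀) (a h₀) hodd] with x hx
    refine Finset.prod_eq_zero (i := (h₀ : ℤ)) ?_ ?_
    · rw [hs]
      exact Finset.mem_map.2 ⟨h₀, hh₀, rfl⟩
    · simpa using hx
  have h3 : ∫ x, ∏ i ∈ s, (x i : ℝ) ^ a i.toNat ∂κ = 0 := by
    rw [← integral_condExp (μ := κ) (m := remote) (f := fun x : X => ∏ i ∈ s, (x i : ℝ) ^ a i.toNat)
      remote_le, integral_congr_ae (h1.trans h2)]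
    simp
  rw [← h3]
  exact integral_congr_ae (Eventually.of_forall fun x => (e0 x).symm)

theorem rpi (u : ℕ → I1) (hu : IsMult u) (hκ : QuasiGeneric u κ) (hab : AbsR κ)
    (hpred : PredRem κ) (hS : MeasurePreserving S κ κ)
    (h0 : κ[fun x => (x 0 : ℝ) | remote] =ᵐ[κ] 0) : Pred u κ := by
  obtain ⟨α, hα, hg, hP⟩ := Pool.Agent.H92.RR.all_pred u hu
  have hκ' := hκ
  obtain ⟨_, N, hN, hF⟩ := hκ
  have hm : ∀ (H : Finset ℕ) (a : ℕ → ℕ), (∃ h ∈ H, Odd (a h)) →
      Tendsto (fun k => lavg (N k) (mono u H a)) atTop (𝓝 0) := by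
    intro H a ha
    have hc : Continuous fun x : X => ∏ h ∈ H, (x (h : ℤ) : ℝ) ^ a h :=
      continuous_finset_prod _ fun h _ =>
        (continuous_subtype_val.comp (continuous_apply (h : ℤ))).pow _
    have h1 := hF ⟨_, hc⟩
    simp only [ContinuousMap.coe_mk] at h1
    rw [mono_zero hab hpred hS h0 H a ha] at h1
    refine h1.congr fun k => ?_
    unfold lavg
    congr 1
    refine Finset.sum_congr rfl fun n hn => ?_
    congr 1
    unfold mono
    refine Finset.prod_congr rfl fun h _ => ?_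
    have hn1 := (Finset.mem_Icc.1 hn).1
    have h2 : (pt u n (h : ℤ) : I1) = u (n + h) := by
      unfold pt
      rw [if_pos (by omega)]
      congr 1
    rw [h2]
  have h1 := Pool.Agent.H92.RR.all_GST u α hα hg N hN hm
  haveI := hP.prob
  have h2 : κ = star α := by
    apply ext_of_forall_integral_eq_of_IsFiniteMeasure
    intro F
    have h3 := hF F.toContinuousMap
    have h4 := h1 F.toContinuousMap
    exact tendsto_nhds_unique h3 h4
  rw [h2]
  exact hP

end Pool.Agent.H47.RPR
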