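import Pool.Agent.H47.RP.Targets

/-!
Rows RQG and RFI of the remote past theorem for real multiplicative functions.
-/

set_option autoImplicit false

open MeasureTheory ProbabilityTheory Filter Topology Finset

namespace Pool.Agent.H47.RPR

open Pool.Agent.H89.MT (I1 X pt z1 IsMult lavg)
open Pool.Agent.H36.RP (S past remote remote_le T_IND)
open Pool.Agent.H47.RP

theorem pf_RQG : T_RQG := by
  intro u κ h
  refine ⟨?_, ?_⟩
  · obtain ⟨h1, N, hN, hF⟩ := h
    refine ⟨fun _ => 1, fun k => max 1 (N k), fun k => ⟨le_rfl, le_max_left _ _⟩, ?_, ?_⟩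
    · have h2 : Tendsto (fun k => Real.log ((N k : ℕ) : ℝ)) atTop atTop :=
        Real.tendsto_log_atTop.comp (tendsto_natCast_atTop_atTop.comp hN)
      refine h2.congr' ?_
      filter_upwards [hN.eventually_ge_atTop 1] with k hk
      have h3 : max 1 (N k) = N k := max_eq_right hk
      rw [h3]
      simp
    · intro F
      refine (hF F).congr' ?_
      filter_upwards [hN.eventually_ge_atTop 1] with k hk
      have h3 : max 1 (N k) = N k := max_eq_right hk
      rw [h3]
      unfold lavg
      simp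
  · exact Pool.Agent.H83.W.qg_mp h

theorem pf_RFI (h1 : T_RQG) (h2 : T_RST) (h3 : T_RZE) (h4 : T_RSE) (h5 : T_IND) : T_RFI := by
  intro u hu κ _ hκ
  obtain ⟨hq, hS⟩ := h1 u κ hκ
  refine h5 κ ?_
  refine h4 κ hS ?_
  by_cases hs : Summable (fun p : ℕ => if p.Prime then (1 - |(u p : ℝ)|) / p else 0)
  · exact Or.inl (h2 u hu hs κ hq)
  · exact Or.inr (h3 u hu hs κ hκ)

end Pool.Agent.H47.RPR
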